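import Mathlib
import Pool.Agent.Lib.MP_0d8f69_coI.Asym

/-!
MP_0d8f69_co, an asymptotic form of the bound of Q1 for the polygons whose distance graphs have few vertices of
degree at least three.
-/

set_option autoImplicit false

namespace Pool.Agent.Results.MP_0d8f69_co.FewBranchVertices

/-- For every `n ≥ 3` and `T`: if `S` is an `n`-point set in convex position in the plane such that for every
distance `D` at most `T` points of `S` have three or more points of `S` at distance `D`, then
`F(S) ≤ (1 + √(3 T / (2 n))) (F(R_n) + n ^ 2 / 4)` (written with `4 F`, the number of pairs of ordered pairs of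
distinct points at the same distance). -/
theorem result :
    ∀ n : ℕ, 3 ≤ n →
    ∀ R : Finset ℂ,
      R = (Finset.univ : Finset (Fin n)).image
        (fun k : Fin n => Complex.exp (2 * (Real.pi : ℂ) * Complex.I * ((k : ℕ) : ℂ) / (n : ℂ))) →
    ∀ S : Finset ℂ, S.card = n →
      (∀ x ∈ S, x ∉ convexHull ℝ (↑(S.erase x) : Set ℂ)) →
    ∀ T : ℕ,
      (∀ D : ℝ, (S.filter (fun p : ℂ => 3 ≤ (S.filter (fun q : ℂ => q ≠ p ∧ dist p q = D)).card)).card ≤ T) →
      (((S.offDiag ×ˢ S.offDiag).filter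
          (fun pq : (ℂ × ℂ) × (ℂ × ℂ) => dist pq.1.1 pq.1.2 = dist pq.2.1 pq.2.2)).card : ℝ)
        ≤ (1 + Real.sqrt (3 * (T : ℝ) / (2 * (n : ℝ)))) *
          ((((R.offDiag ×ˢ R.offDiag).filter
            (fun pq : (ℂ × ℂ) × (ℂ × ℂ) => dist pq.1.1 pq.1.2 = dist pq.2.1 pq.2.2)).card : ℝ) + (n : ℝ) ^ 2) := by
  rintro n hn R rfl S hS hc T hT
  subst hS
  exact Lib.MP_0d8f69_coI.asym hc hn hT

end Pool.Agent.Results.MP_0d8f69_co.FewBranchVertices
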