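import Mathlib
import Pool.Agent.Lib.MP_0d8f69_coI.Main

/-!
MP_0d8f69_co, Q1 for the polygons with at most as many isosceles triangles as the regular polygon.
-/

set_option autoImplicit false

namespace Pool.Agent.Results.MP_0d8f69_co.IsoscelesCount

/-- For every `n ≥ 3`: among the `n`-point sets `S` in convex position in the plane which span at most
`n * ⌊(n - 1) / 2⌋` isosceles triangles (the number for the regular `n`-gon; counted are the triples of an apex and a
pair of distinct points at the same distance from it, with ordered pairs this is `n * (2 * ⌊(n - 1) / 2⌋)`), the sum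
over distances of the squared number of point pairs at that distance is maximal for the regular `n`-gon, and only
sets similar to it attain the maximum. -/
theorem result :
    ∀ n : ℕ, 3 ≤ n →
    ∀ R : Finset ℂ,
      R = (Finset.univ : Finset (Fin n)).image
        (fun k : Fin n => Complex.exp (2 * (Real.pi : ℂ) * Complex.I * ((k : ℕ) : ℂ) / (n : ℂ))) →
    ∀ S : Finset ℂ, S.card = n →
      (∀ x ∈ S, x ∉ convexHull ℝ (↑(S.erase x) : Set ℂ)) →
      ((S ×ˢ S.offDiag).filter (fun t : ℂ × ℂ × ℂ => dist t.1 t.2.1 = dist t.1 t.2.2)).card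
        ≤ n * (2 * ((n - 1) / 2)) →
      (((S.offDiag ×ˢ S.offDiag).filter
          (fun pq : (ℂ × ℂ) × (ℂ × ℂ) => dist pq.1.1 pq.1.2 = dist pq.2.1 pq.2.2)).card
        ≤ ((R.offDiag ×ˢ R.offDiag).filter
          (fun pq : (ℂ × ℂ) × (ℂ × ℂ) => dist pq.1.1 pq.1.2 = dist pq.2.1 pq.2.2)).card) ∧
      (((S.offDiag ×ˢ S.offDiag).filter
          (fun pq : (ℂ × ℂ) × (ℂ × ℂ) => dist pq.1.1 pq.1.2 = dist pq.2.1 pq.2.2)).card
        = ((R.offDiag ×ˢ R.offDiag).filter
          (fun pq : (ℂ × ℂ) × (ℂ × ℂ) => dist pq.1.1 pq.1.2 = dist pq.2.1 pq.2.2)).card →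
        ∃ a b : ℂ, a ≠ 0 ∧ S = R.image (fun z => a * z + b)) := by
  rintro n hn R rfl S hS hc hI
  subst hS
  exact Lib.MP_0d8f69_coI.main hc hn hI

end Pool.Agent.Results.MP_0d8f69_co.IsoscelesCount
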