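import Mathlib
import Pool.Agent.Lib.MP_0d8f69_co.L12

/-!
MP_0d8f69_co, Q1 for the polygons almost all of whose vertices lie on one circle: for every `n ≥ 3`, if at most
`n / 10000` of the vertices of a convex `n`-gon `S` are off some circle, then `F(S) ≤ F(R_n)`, with equality only
if `S` is similar to the regular `n`-gon `R_n`.
-/

set_option autoImplicit false

namespace Pool.Agent.Results.MP_0d8f69_co.NearlyConcyclic

/-- For every `n ≥ 3`: among the `n`-point sets in convex position in the plane of which at most `n / 10000` points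
are off some circle (center `c`, radius `r`), the sum over distances of the squared number of point pairs at that
distance is maximal for the regular `n`-gon, and only sets similar to it attain the maximum. -/
theorem result :
    ∀ n : ℕ, 3 ≤ n →
    ∀ R : Finset ℂ,
      R = (Finset.univ : Finset (Fin n)).image
        (fun k : Fin n => Complex.exp (2 * (Real.pi : ℂ) * Complex.I * ((k : ℕ) : ℂ) / (n : ℂ))) →
    ∀ S : Finset ℂ, S.card = n →
      (∀ x ∈ S, x ∉ convexHull ℝ (↑(S.erase x) : Set ℂ)) →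
      (∃ (c : ℂ) (r : ℝ), 10000 * (S.filter (fun z : ℂ => dist z c ≠ r)).card ≤ n) →
      (((S.offDiag ×ˢ S.offDiag).filter
          (fun pq : (ℂ × ℂ) × (ℂ × ℂ) => dist pq.1.1 pq.1.2 = dist pq.2.1 pq.2.2)).card
        ≤ ((R.offDiag ×ˢ R.offDiag).filter
          (fun pq : (ℂ × ℂ) × (ℂ × ℂ) => dist pq.1.1 pq.1.2 = dist pq.2.1 pq.2.2)).card) ∧
      (((S.offDiag ×ˢ S.offDiag).filter
          (fun pq : (ℂ × ℂ) × (ℂ × ℂ) => dist pq.1.1 pq.1.2 = dist pq.2.1 pq.2.2)).card
        = ((R.offDiag ×ˢ R.offDiag).filter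
          (fun pq : (ℂ × ℂ) × (ℂ × ℂ) => dist pq.1.1 pq.1.2 = dist pq.2.1 pq.2.2)).card →
        ∃ a b : ℂ, a ≠ 0 ∧ S = R.image (fun z => a * z + b)) := by
  rintro n hn R rfl S hS hc ⟨c, r, hB⟩
  subst hS
  have h1 := Lib.MP_0d8f69_co.Qn_mu (n := S.card) (by omega)
  rcases Lib.MP_0d8f69_co.main hc hn hB with ⟨a, b, ha, h⟩ | h
  · refine ⟨?_, fun _ => ⟨a, b, ha, h⟩⟩
    have h2 : Lib.MP_0d8f69_co.Qn S = Lib.MP_0d8f69_co.Qn (Lib.MP_0d8f69_co.mu S.card) := by
      have h3 := Lib.MP_0d8f69_co.Qn_si ha b (Lib.MP_0d8f69_co.mu S.card)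
      have h4 : (Lib.MP_0d8f69_co.mu S.card).image (Lib.MP_0d8f69_co.si a b) = S := h.symm
      rwa [h4] at h3
    exact h2.le
  · have h2 : Lib.MP_0d8f69_co.Qn S < Lib.MP_0d8f69_co.Qn (Lib.MP_0d8f69_co.mu S.card) := by omega
    exact ⟨h2.le, fun h3 => absurd h3 h2.ne⟩

end Pool.Agent.Results.MP_0d8f69_co.NearlyConcyclic
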