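import Mathlib
import Pool.Agent.Lib.MP_0d8f69_coT.FinR

/-!
MP_0d8f69_co, Q1 for the large polygons whose distance graphs have small average excess over degree two.
-/

set_option autoImplicit false

namespace Pool.Agent.Results.MP_0d8f69_co.SmallExcess

/-- For every `n ≥ 10 ^ 202`: for a set `S` of `n` points in convex position in the plane and a distance `D` let the
excess `e_D` be the sum over the points `p` of `S` of `max(deg_D(p) - 2, 0)`, where `deg_D(p)` is the number of points
of `S` at distance `D` from `p`. Among the sets `S` for which the sum of `e_D`, `D = dist x y`, over the ordered pairs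
`(x, y)` of distinct points of `S` is at most `n ^ 3 / 10 ^ 202`, the sum over distances of the squared number of point
pairs at that distance is maximal for the regular `n`-gon, and only sets similar to it attain the maximum. -/
theorem result :
    ∀ n : ℕ, 10 ^ 202 ≤ n →
    ∀ R : Finset ℂ,
      R = (Finset.univ : Finset (Fin n)).image
        (fun k : Fin n => Complex.exp (2 * (Real.pi : ℂ) * Complex.I * ((k : ℕ) : ℂ) / (n : ℂ))) →
    ∀ S : Finset ℂ, S.card = n →
      (∀ x ∈ S, x ∉ convexHull ℝ (↑(S.erase x) : Set ℂ)) →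
      10 ^ 202 * ∑ xy ∈ S.offDiag, ∑ p ∈ S,
        ((S.filter (fun q : ℂ => q ≠ p ∧ dist p q = dist xy.1 xy.2)).card - 2) ≤ n ^ 3 →
      (((S.offDiag ×ˢ S.offDiag).filter
          (fun pq : (ℂ × ℂ) × (ℂ × ℂ) => dist pq.1.1 pq.1.2 = dist pq.2.1 pq.2.2)).card
        ≤ ((R.offDiag ×ˢ R.offDiag).filter
          (fun pq : (ℂ × ℂ) × (ℂ × ℂ) => dist pq.1.1 pq.1.2 = dist pq.2.1 pq.2.2)).card) ∧
      (((S.offDiag ×ˢ S.offDiag).filter
          (fun pq : (ℂ × ℂ) × (ℂ × ℂ) => dist pq.1.1 pq.1.2 = dist pq.2.1 pq.2.2)).card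
        = ((R.offDiag ×ˢ R.offDiag).filter
          (fun pq : (ℂ × ℂ) × (ℂ × ℂ) => dist pq.1.1 pq.1.2 = dist pq.2.1 pq.2.2)).card →
        ∃ a b : ℂ, a ≠ 0 ∧ S = R.image (fun z => a * z + b)) := by
  rintro n hn R rfl S hS hc hE
  subst hS
  exact Lib.MP_0d8f69_coT.nearlyR hc hn hE

end Pool.Agent.Results.MP_0d8f69_co.SmallExcess
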